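import Pool.Agent.helper82.VD.SpecG

/-!
# Project VD, block B3, row GGV (the volume lemma)
-/

set_option autoImplicit false

open MeasureTheory Filter Set Topology Pool.Agent.VDE
open scoped ENNReal

namespace Pool.Agent.VDG

/-- Bowen balls decrease in the time and increase in the radius -/
theorem GGV_mono {S : Type} (d : S → S → ℝ) (f : ℝ → S → S) (T T' : ℝ) (x : S) (ε ε' : ℝ) (hT : T' ≤ T) (hε : ε ≤ ε') : BB d f T x ε ⊆ BB d f T' x ε' := by
  intro y hy s hs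
  exact (hy s ⟨hs.1, hs.2.trans hT⟩).trans hε

/-- sets and flows -/
theorem GGV_flow {S : Type} [MeasurableSpace S] (μ : Measure S) (f : ℝ → S → S) (f0 : ∀ x, f 0 x = x) (fa : ∀ (s t : ℝ) (x : S), f (s + t) x = f s (f t x))
    (fm : ∀ t : ℝ, MeasurePreserving (f t) μ μ) (s : ℝ) (A B : Set S) (h : ∀ y ∈ A, f s y ∈ B) : μ A ≤ μ B := by
  let E : S ≃ᵐ S :=
    { toFun := f s
      invFun := f (-s)
      left_inv := by intro x; rw [← fa, neg_add_cancel, f0]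
      right_inv := by intro x; rw [← fa, add_neg_cancel, f0]
      measurable_toFun := (fm s).measurable
      measurable_invFun := (fm (-s)).measurable }
  have hE : MeasurePreserving E μ μ := fm s
  have h1 : μ (E ⁻¹' B) = μ B := hE.measure_preimage_equiv B
  calc μ A ≤ μ (E ⁻¹' B) := measure_mono (fun y hy => h y hy)
    _ = μ B := h1

theorem GGV_proof (hGDR : GDR_stmt) (hGIN : GIN_stmt) (hGOU : GOU_stmt) (hGSB : GSB_stmt) : GGV_stmt := by
  intro S _ m μ d f H C e κ F τ C1 ρ0 hS hH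
  obtain ⟨g1, g2, _⟩ := hGDR μ d f H C e κ F τ C1 ρ0 hS hH
  obtain ⟨ρ1, C2, hρ1, hC2, g4⟩ := hGIN μ d f H C e κ F τ C1 ρ0 hS hH
  obtain ⟨ε1, hε1, g5⟩ := hGOU μ d f H C e κ F τ C1 ρ0 hS hH
  obtain ⟨b1, b2, b3, b4⟩ := hGSB H C1 ρ0 hH
  have hC0 : 0 < C := lt_of_lt_of_le one_pos hS.hC
  have he := hS.he
  have hρ0 := hH.hρ
  refine ⟨min ε1 (min (ρ0 / C) (e / C)), lt_min hε1 (lt_min (div_pos hρ0 hC0) (div_pos he hC0)), ?_⟩
  intro ε' ε hε' hε'ε hεε0
  have hε : 0 < ε := lt_of_lt_of_le hε' hε'ε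
  have e1 : ε ≤ ε1 := hεε0.trans (min_le_left _ _)
  have e2 : ε ≤ ρ0 / C := hεε0.trans ((min_le_right _ _).trans (min_le_left _ _))
  have e3 : ε ≤ e / C := hεε0.trans ((min_le_right _ _).trans (min_le_right _ _))
  set ρ : ℝ := C * ε with hρdef
  have hρpos : 0 < ρ := mul_pos hC0 hε
  have r1 : ρ ≤ ρ0 := by
    rw [le_div_iff₀ hC0] at e2
    rw [hρdef]; linarith
  have r2 : ρ ≤ e := by
    rw [le_div_iff₀ hC0] at e3
    rw [hρdef]; linarith
  set ρ' : ℝ := min ρ1 (min (ε' / C2) (min ρ e)) with hρ'def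
  have hρ'pos : 0 < ρ' := lt_min hρ1 (lt_min (div_pos hε' hC2) (lt_min hρpos he))
  have r3 : ρ' ≤ ρ1 := min_le_left _ _
  have r4 : ρ' ≤ ε' / C2 := (min_le_right _ _).trans (min_le_left _ _)
  have r5 : ρ' ≤ ρ := (min_le_right _ _).trans ((min_le_right _ _).trans (min_le_left _ _))
  have r6 : ρ' ≤ e := (min_le_right _ _).trans ((min_le_right _ _).trans (min_le_right _ _))
  have r7 : C2 * ρ' ≤ ε' := by
    rw [le_div_iff₀ hC2] at r4
    linarith
  obtain ⟨c0, hc0, hc⟩ := b4 ρ' ρ hρ'pos r5 r1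
  have hbig : 0 < C * ρ := mul_pos hC0 hρpos
  refine ⟨c0 * (C⁻¹ * ρ') / (C * ρ) ^ 2, div_pos (mul_pos hc0 (mul_pos (inv_pos.mpr hC0) hρ'pos)) (pow_pos hbig 2), ?_⟩
  intro x T U hT hU
  have hsub : ∀ (y : S) (l : ℕ), SB (orb f F y) l ρ ⊆ Metric.closedBall 0 e := by
    intro y l
    exact (b2 _ l ρ).trans (Metric.closedBall_subset_closedBall r2)
  have hup : ∀ (y : S) (l : ℕ), μ (BB d f l y ε) ≤ ENNReal.ofReal (C * ρ) * volume (SB (orb f F y) l ρ) := by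
    intro y l
    exact (measure_mono (g5 y l ε hε.le e1)).trans (hS.mle y _ ρ (hsub y l) (b3 (orb f F y) l ρ r1 (fun i _ => (g1 y i).1)).measurableSet hρpos.le r2)
  set n : ℕ := ⌊T⌋₊ with hn
  set k : ℕ := ⌊U⌋₊ - 1 with hk
  have n1 : (n : ℝ) ≤ T := Nat.floor_le hT
  have n2 : T < n + 1 := Nat.lt_floor_add_one T
  have k2 : U < k + 2 := by
    have h1 : U < (⌊U⌋₊ : ℝ) + 1 := Nat.lt_floor_add_one U
    have h2 : ⌊U⌋₊ ≤ k + 1 := by omega
    have h3 : (⌊U⌋₊ : ℝ) ≤ (k : ℝ) + 1 := by exact_mod_cast h2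
    linarith
  -- (a)
  have hA : μ (BB d f T x ε) ≤ ENNReal.ofReal (C * ρ) * volume (SB (orb f F x) n ρ) :=
    (measure_mono (GGV_mono d f T n x ε ε n1 le_rfl)).trans (hup x n)
  -- (c)
  have horb : (fun i => orb f F x (n + 1 + i)) = orb f F (f ((n : ℝ) + 1) x) := by
    funext i
    have h := g2 x (n + 1) i
    rw [Nat.cast_add, Nat.cast_one] at h
    exact h.symm
  -- (b)
  have hB : μ (BB d f U (f T x) ε) ≤ ENNReal.ofReal (C * ρ) * volume (SB (fun i => orb f F x (n + 1 + i)) k ρ) := by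
    rw [horb]
    by_cases h1 : 1 ≤ U
    · have hk1 : (k : ℝ) + 1 ≤ U := by
        have h2 : 1 ≤ ⌊U⌋₊ := Nat.le_floor (by exact_mod_cast h1)
        have h3 : k + 1 = ⌊U⌋₊ := by omega
        have h4 : (k : ℝ) + 1 = (⌊U⌋₊ : ℝ) := by exact_mod_cast h3
        rw [h4]
        exact Nat.floor_le hU
      have hstep : μ (BB d f U (f T x) ε) ≤ μ (BB d f k (f ((n : ℝ) + 1) x) ε) := by
        refine GGV_flow μ f hS.f0 hS.fa hS.fm ((n : ℝ) + 1 - T) _ _ ?_
        intro y hy r hr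
        have h5 : f r (f ((n : ℝ) + 1) x) = f (r + ((n : ℝ) + 1 - T)) (f T x) := by
          rw [← hS.fa, ← hS.fa]
          congr 1
          ring
        have h6 : f r (f ((n : ℝ) + 1 - T) y) = f (r + ((n : ℝ) + 1 - T)) y := (hS.fa _ _ _).symm
        rw [h5, h6]
        refine hy _ ⟨?_, ?_⟩
        · have := hr.1; linarith
        · have := hr.2; linarith
      exact hstep.trans (hup _ k)
    · have h1' : U < 1 := not_le.mp h1
      have h2 : ⌊U⌋₊ = 0 := Nat.floor_eq_zero.mpr h1'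
      have hk0 : k = 0 := by omega
      have h3 : μ (BB d f U (f T x) ε) ≤ ENNReal.ofReal (C * ρ) * volume (SB (orb f F (f T x)) 0 ρ) := by
        have h4 := hup (f T x) 0
        rw [Nat.cast_zero] at h4
        exact (measure_mono (GGV_mono d f U 0 (f T x) ε ε hU le_rfl)).trans h4
      rw [hk0]
      rw [b1] at h3 ⊢
      exact h3
  -- (d)
  have hD : ENNReal.ofReal (C⁻¹ * ρ') * volume (SB (orb f F x) (n + k + 3) ρ') ≤ μ (BB d f (T + U) x ε') := by
    have s1 : SB (orb f F x) (n + k + 3) ρ' ⊆ Metric.closedBall 0 e := (b2 _ _ _).trans (Metric.closedBall_subset_closedBall r6)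
    have s2 : IsClosed (SB (orb f F x) (n + k + 3) ρ') := b3 _ _ _ (r5.trans r1) (fun i _ => (g1 x i).1)
    refine (hS.lem x _ ρ' s1 s2.measurableSet hρ'pos.le r6).trans (measure_mono ?_)
    refine (g4 x (n + k + 3) ρ' hρ'pos.le r3).trans (GGV_mono d f _ _ x _ _ ?_ r7)
    push_cast
    linarith
  have hcc : ENNReal.ofReal (c0 * (C⁻¹ * ρ') / (C * ρ) ^ 2) * (ENNReal.ofReal (C * ρ) * ENNReal.ofReal (C * ρ)) = ENNReal.ofReal (C⁻¹ * ρ') * ENNReal.ofReal c0 := by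
    rw [← ENNReal.ofReal_mul hbig.le, ← ENNReal.ofReal_mul (by positivity), ← ENNReal.ofReal_mul (by positivity)]
    congr 1
    field_simp
  calc ENNReal.ofReal (c0 * (C⁻¹ * ρ') / (C * ρ) ^ 2) * (μ (BB d f T x ε) * μ (BB d f U (f T x) ε))
      ≤ ENNReal.ofReal (c0 * (C⁻¹ * ρ') / (C * ρ) ^ 2) * ((ENNReal.ofReal (C * ρ) * volume (SB (orb f F x) n ρ)) * (ENNReal.ofReal (C * ρ) * volume (SB (fun i => orb f F x (n + 1 + i)) k ρ))) := by
        gcongr
    _ = (ENNReal.ofReal (c0 * (C⁻¹ * ρ') / (C * ρ) ^ 2) * (ENNReal.ofReal (C * ρ) * ENNReal.ofReal (C * ρ))) * (volume (SB (orb f F x) n ρ) * volume (SB (fun i => orb f F x (n + 1 + i)) k ρ)) := by ring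
    _ = ENNReal.ofReal (C⁻¹ * ρ') * (ENNReal.ofReal c0 * (volume (SB (orb f F x) n ρ) * volume (SB (fun i => orb f F x (n + 1 + i)) k ρ))) := by rw [hcc]; ring
    _ ≤ ENNReal.ofReal (C⁻¹ * ρ') * volume (SB (orb f F x) (n + k + 3) ρ') := by
        gcongr
        exact hc n k (orb f F x) (fun i => g1 x i)
    _ ≤ μ (BB d f (T + U) x ε') := hD

end Pool.Agent.VDG
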